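import Mathlib

namespace Pool.Agent.L5helper64.NfLow

open Polynomial Module NumberField

/-- the roots of an irreducible polynomial over a finite field in a finite extension are conjugate
by powers of the Frobenius -/
theorem conj_roots (F : Type) [Field F] [Fintype F] (k : Type) [Field k] [Finite k] [Algebra F k]
    (h : F[X]) (hi : Irreducible h) (hm : h.Monic) (u v : k) (hu : aeval u h = 0)
    (hv : aeval v h = 0) : ∃ i : ℕ, v = u ^ Fintype.card F ^ i := by
  have hmx : minpoly F u = h := (minpoly.eq_of_irreducible_of_monic hi hu hm).symm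
  have : Algebra.IsAlgebraic F k := Algebra.IsAlgebraic.of_finite _ _
  obtain ⟨τ, hτ⟩ := minpoly.exists_algEquiv_of_root' (K := F) (x := v) (y := u)
    (Algebra.IsAlgebraic.isAlgebraic _) (by rw [hmx]; exact hv)
  obtain ⟨i, hi⟩ := (FiniteField.bijective_frobeniusAlgEquivOfAlgebraic_pow F k).2 τ
  refine ⟨i, ?_⟩
  rw [← hτ, ← hi]
  simp only [AlgEquiv.coe_pow, FiniteField.coe_frobeniusAlgEquivOfAlgebraic_iterate]

theorem pow_root (F : Type) [Field F] [Fintype F] (k : Type) [Field k] [Finite k] [Algebra F k]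
    (h : F[X]) (hi : Irreducible h) (hm : h.Monic) (u : k) (hu : aeval u h = 0) :
    u ^ Fintype.card F ^ h.natDegree = u := by
  classical
  have hmx : minpoly F u = h := (minpoly.eq_of_irreducible_of_monic hi hu hm).symm
  have hui : IsIntegral F u := Algebra.IsIntegral.isIntegral u
  set L := IntermediateField.adjoin F {u} with hF
  have hfin : Finite L := inferInstance
  have : Fintype L := Fintype.ofFinite L
  have hfd : FiniteDimensional F L := IntermediateField.adjoin.finiteDimensional hui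
  have hcard : Fintype.card L = Fintype.card F ^ h.natDegree := by
    have h1 := Module.card_eq_pow_finrank (K := F) (V := L)
    have h2 : finrank F L = h.natDegree := by
      rw [hF, IntermediateField.adjoin.finrank hui, hmx]
    rw [h2] at h1
    exact h1
  have h2 := FiniteField.pow_card (⟨u, IntermediateField.mem_adjoin_simple_self _ u⟩ : L)
  rw [hcard] at h2
  exact congrArg (fun z : L => (z : k)) h2

theorem root_quad (F : Type) [Field F] [Fintype F] (k : Type) [Field k] [Finite k] [Algebra F k]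
    (h : F[X]) (hi : Irreducible h) (hd : h.natDegree = 2) (u : k)
    (hu : aeval u h = 0) : u ^ Fintype.card F ≠ u := by
  intro hup
  have : Algebra.IsAlgebraic F k := Algebra.IsAlgebraic.of_finite _ _
  have hfix : ∀ g : Gal(k/F), g u = u := by
    intro g
    obtain ⟨i, hi⟩ := (FiniteField.bijective_frobeniusAlgEquivOfAlgebraic_pow F k).2 g
    rw [← hi]
    simp only [AlgEquiv.coe_pow, FiniteField.coe_frobeniusAlgEquivOfAlgebraic_iterate]
    have : ∀ j : ℕ, u ^ Fintype.card F ^ j = u := by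
      intro j
      induction j with
      | zero => simp
      | succ j ih => rw [pow_succ, pow_mul, ih, hup]
    exact this _
  have hbot := (IsGalois.mem_bot_iff_fixed (F := F) u).2 hfix
  rw [IntermediateField.mem_bot] at hbot
  obtain ⟨c, hc⟩ := hbot
  rw [← hc, aeval_algebraMap_apply] at hu
  have hc0 : aeval c h = 0 := (map_eq_zero_iff _ (algebraMap F k).injective).1 hu
  have h1 := degree_eq_one_of_irreducible_of_root hi (x := c) (by
    rw [IsRoot.def, ← coe_aeval_eq_eval]; exact hc0)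
  rw [degree_eq_natDegree hi.ne_zero, hd] at h1
  exact absurd h1 (by decide)

/-- Frobenius at a prime of `E` when `f` is squarefree modulo the prime `ker θ` of `K` -/
theorem frob_gen (K : Type) [Field K] [NumberField K] (E : Type) [Field E] [NumberField E]
    [Algebra K E] [IsGalois K E] (F : Type) [Field F] [Fintype F] (θ : 𝓞 K →+* F)
    (hθ : Function.Surjective θ) (f : (𝓞 K)[X]) (hf : f.Monic)
    (hs : (f.map (algebraMap (𝓞 K) E)).Splits) (hsep : (f.map θ).Separable) :
    ∃ (σ : Gal(E/K)) (k : Type) (_ : Field k) (_ : Finite k) (_ : Algebra F k) (ρ : E → k),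
      ((f.map θ).map (algebraMap F k)).Splits ∧
      (∀ a, aeval a f = 0 → aeval (ρ a) (f.map θ) = 0) ∧
      (∀ a b, aeval a f = 0 → aeval b f = 0 → ρ a = ρ b → a = b) ∧
      (∀ u : k, aeval u (f.map θ) = 0 → ∃ a, aeval a f = 0 ∧ ρ a = u) ∧
      (∀ a, aeval a f = 0 → ρ (σ a) = ρ a ^ Fintype.card F) := by
  classical
  have hPmax : (RingHom.ker θ).IsMaximal := RingHom.ker_isMaximal_of_surjective θ hθ
  obtain ⟨Q, hQmax, hQ⟩ := Ideal.exists_ideal_over_maximal_of_isIntegral (S := 𝓞 E)
    (RingHom.ker θ) (by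
      rw [(RingHom.injective_iff_ker_eq_bot _).1 (FaithfulSMul.algebraMap_injective (𝓞 K) (𝓞 E))]
      exact bot_le)
  have hQp : Q.IsPrime := hQmax.isPrime
  obtain ⟨p, hp⟩ := CharP.exists F
  have hp0 : p ≠ 0 := CharP.char_ne_zero_of_finite F p
  have hpQ : ((p : ℕ) : 𝓞 E) ∈ Q := by
    have h1 : ((p : ℕ) : 𝓞 K) ∈ Q.comap (algebraMap (𝓞 K) (𝓞 E)) := by
      rw [hQ, RingHom.mem_ker, map_natCast]
      exact CharP.cast_eq_zero F p
    rw [Ideal.mem_comap, map_natCast] at h1
    exact h1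
  have hQbot : Q ≠ ⊥ := by
    intro h
    rw [h, Ideal.mem_bot] at hpQ
    exact (Nat.cast_ne_zero (R := 𝓞 E)).2 hp0 hpQ
  have : Finite (𝓞 E ⧸ Q) := Ideal.finiteQuotientOfFreeOfNeBot Q hQbot
  obtain ⟨σ, hσ⟩ := IsArithFrobAt.exists_of_isInvariant (𝓞 K) Gal(E/K) Q
  have hcard : Nat.card (𝓞 K ⧸ Q.under (𝓞 K)) = Fintype.card F := by
    have h1 : Q.under (𝓞 K) = RingHom.ker θ := hQ
    rw [h1, ← Nat.card_eq_fintype_card]
    exact Nat.card_congr (RingHom.quotientKerEquivOfSurjective hθ).toEquiv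
  obtain ⟨k, hkf, hkfin, φ, ι, hι, hσ'⟩ : ∃ (k : Type) (_ : Field k) (_ : Finite k)
      (φ : 𝓞 E →+* k) (ι : F →+* k), (∀ x : 𝓞 K, ι (θ x) = φ (algebraMap (𝓞 K) (𝓞 E) x)) ∧
      ∀ x : 𝓞 E, φ (σ • x) = φ x ^ Fintype.card F := by
    let _ : Field (𝓞 E ⧸ Q) := Ideal.Quotient.field Q
    have hker : RingHom.ker θ ≤
        RingHom.ker ((Ideal.Quotient.mk Q).comp (algebraMap (𝓞 K) (𝓞 E))) := by
      intro x hx
      rw [← hQ, Ideal.mem_comap] at hx
      rw [RingHom.mem_ker, RingHom.comp_apply]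
      exact Ideal.Quotient.eq_zero_iff_mem.2 hx
    refine ⟨𝓞 E ⧸ Q, Ideal.Quotient.field Q, inferInstance, Ideal.Quotient.mk Q,
      RingHom.liftOfSurjective θ hθ ⟨_, hker⟩, ?_, ?_⟩
    · intro x
      exact RingHom.liftOfRightInverse_comp_apply θ _ _ ⟨_, hker⟩ x
    · intro x
      have h1 := hσ x
      rw [hcard] at h1
      have h2 : Ideal.Quotient.mk Q (σ • x) = Ideal.Quotient.mk Q (x ^ Fintype.card F) := by
        rw [Ideal.Quotient.eq]
        exact h1
      exact h2.trans (map_pow _ _ _)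
  let _ : Algebra F k := ι.toAlgebra
  have hintE : ∀ a : E, aeval a f = 0 → IsIntegral ℤ a := by
    intro a ha
    have h1 : IsIntegral (𝓞 K) a := ⟨f, hf, ha⟩
    exact isIntegral_trans (R := ℤ) a h1
  -- the roots
  set s := (f.map (algebraMap (𝓞 K) E)).roots with hsdef
  have hint : ∀ a ∈ s, IsIntegral ℤ a := by
    intro a ha
    apply hintE
    have := (mem_roots'.1 ha).2
    rw [IsRoot.def, eval_map] at this
    exact this
  have hex : ∀ a ∈ s, ∃ x : 𝓞 E, (x : E) = a := fun a ha => ⟨⟨a, hint a ha⟩, rfl⟩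
  choose g hg using hex
  obtain ⟨t, hts⟩ : ∃ t : Multiset (𝓞 E), t.map (fun a : 𝓞 E => (a : E)) = s := by
    refine ⟨s.attach.map (fun a => g a.1 a.2), ?_⟩
    rw [Multiset.map_map]
    have h1 : ((fun a : 𝓞 E => (a : E)) ∘ fun a : {x // x ∈ s} => g a.1 a.2)
        = fun a : {x // x ∈ s} => a.1 := by
      funext a
      exact hg a.1 a.2
    rw [h1]
    exact Multiset.attach_map_val s
  have hprodE : f.map (algebraMap (𝓞 K) E) = (s.map fun a => X - C a).prod := by
    have h1 := hs.eq_prod_roots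
    rw [(hf.map _).leadingCoeff, C_1, one_mul] at h1
    exact h1
  have hprodO : f.map (algebraMap (𝓞 K) (𝓞 E)) = (t.map fun a => X - C a).prod := by
    apply Polynomial.map_injective (algebraMap (𝓞 E) E) (FaithfulSMul.algebraMap_injective _ _)
    rw [Polynomial.map_map, ← IsScalarTower.algebraMap_eq, hprodE, Polynomial.map_multiset_prod,
      Multiset.map_map, ← hts, Multiset.map_map]
    congr 1
    apply Multiset.map_congr rfl
    intro a _
    simp
  set fb := f.map θ with hfb
  have hprodk : fb.map (algebraMap F k) = ((t.map φ).map fun a => X - C a).prod := by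
    rw [hfb, Polynomial.map_map]
    have h1 : (algebraMap F k).comp θ = φ.comp (algebraMap (𝓞 K) (𝓞 E)) :=
      RingHom.ext fun x => hι x
    rw [h1, ← Polynomial.map_map, hprodO, Polynomial.map_multiset_prod, Multiset.map_map,
      Multiset.map_map]
    congr 1
    apply Multiset.map_congr rfl
    intro a _
    simp
  have hroots : (fb.map (algebraMap F k)).roots = t.map φ := by
    rw [hprodk, roots_multiset_prod_X_sub_C]
  have hnodup : (t.map φ).Nodup := by
    rw [← hroots]
    exact nodup_roots hsep.map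
  have hinj : ∀ x ∈ t, ∀ y ∈ t, φ x = φ y → x = y := by
    intro x hx y hy hxy
    exact Multiset.inj_on_of_nodup_map hnodup x hx y hy hxy
  have hmemt : ∀ x : 𝓞 E, x ∈ t ↔ aeval (x : E) f = 0 := by
    intro x
    constructor
    · intro hx
      have h1 : (x : E) ∈ s := by rw [← hts]; exact Multiset.mem_map_of_mem _ hx
      have h2 := (mem_roots'.1 h1).2
      rw [IsRoot.def, eval_map] at h2
      exact h2
    · intro hx
      have h1 : (x : E) ∈ s := by
        rw [hsdef, mem_roots (hf.map _).ne_zero, IsRoot.def, eval_map]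
        exact hx
      rw [← hts, Multiset.mem_map] at h1
      obtain ⟨y, hy, hyx⟩ := h1
      have : y = x := RingOfIntegers.ext hyx
      rwa [← this]
  have hne0 : fb.map (algebraMap F k) ≠ 0 := by
    rw [hprodk]
    exact (monic_multiset_prod_of_monic _ _ fun a _ => monic_X_sub_C a).ne_zero
  refine ⟨σ, k, hkf, hkfin, inferInstance,
    fun a => if h : IsIntegral ℤ a then φ ⟨a, h⟩ else 0, ?_, ?_, ?_, ?_, ?_⟩
  · rw [hprodk]
    exact Splits.multisetProd (by
      intro q hq
      obtain ⟨a, _, rfl⟩ := Multiset.mem_map.1 hq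
      exact Splits.X_sub_C a)
  · intro a ha
    have h1 := hintE a ha
    simp only [dif_pos h1]
    have h2 : φ ⟨a, h1⟩ ∈ (fb.map (algebraMap F k)).roots := by
      rw [hroots]; exact Multiset.mem_map_of_mem _ ((hmemt ⟨a, h1⟩).2 ha)
    have h3 := (mem_roots'.1 h2).2
    rw [IsRoot.def, eval_map] at h3
    exact h3
  · intro a b ha hb hab
    have h1 := hintE a ha
    have h2 := hintE b hb
    simp only [dif_pos h1, dif_pos h2] at hab
    have h3 := hinj ⟨a, h1⟩ ((hmemt ⟨a, h1⟩).2 ha) ⟨b, h2⟩ ((hmemt ⟨b, h2⟩).2 hb) hab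
    exact congrArg (fun z : 𝓞 E => (z : E)) h3
  · intro u hu
    have h1 : u ∈ (fb.map (algebraMap F k)).roots := by
      rw [mem_roots hne0, IsRoot.def, eval_map]
      exact hu
    rw [hroots, Multiset.mem_map] at h1
    obtain ⟨x, hx, hxu⟩ := h1
    refine ⟨x, (hmemt x).1 hx, ?_⟩
    have h2 : IsIntegral ℤ (x : E) := hintE _ ((hmemt x).1 hx)
    simp only [dif_pos h2]
    rw [← hxu]
    rfl
  · intro a ha
    have h1 := hintE a ha
    have h2 : IsIntegral ℤ (σ a) := h1.map ((σ : E →+* E).toIntAlgHom)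
    simp only [dif_pos h1, dif_pos h2]
    exact hσ' ⟨a, h1⟩

theorem root_map (K : Type) [Field K] (E : Type) [Field E] [Algebra K E] (f : (𝓞 K)[X])
    (g : Gal(E/K)) (a : E) (ha : aeval a f = 0) : aeval (g a) f = 0 := by
  have h1 : aeval (g a) f = g (aeval a f) :=
    Polynomial.aeval_algHom_apply ((g : E →ₐ[K] E).restrictScalars (𝓞 K)) a f
  rw [h1, ha, map_zero]

/-- Frobenius when `f` is `X * h3` modulo the prime -/
theorem frob (K : Type) [Field K] [NumberField K] (E : Type) [Field E] [NumberField E]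
    [Algebra K E] [IsGalois K E] (F : Type) [Field F] [Fintype F] (θ : 𝓞 K →+* F)
    (hθ : Function.Surjective θ) (f : (𝓞 K)[X]) (hf : f.Monic)
    (hs : (f.map (algebraMap (𝓞 K) E)).Splits) (h3 : F[X]) (h3i : Irreducible h3)
    (h3m : h3.Monic) (h30 : h3.coeff 0 ≠ 0) (hmod : f.map θ = X * h3) :
    ∃ (σ : Gal(E/K)) (a₁ : E), aeval a₁ f = 0 ∧ σ a₁ = a₁ ∧
      ∀ a a' : E, aeval a f = 0 → aeval a' f = 0 → a ≠ a₁ → a' ≠ a₁ →
        ∃ i : ℕ, (σ ^ i) a = a' := by
  classical
  have hsep : (f.map θ).Separable := by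
    rw [hmod]
    apply Separable.mul separable_X (PerfectField.separable_of_irreducible h3i)
    rw [irreducible_X.coprime_iff_not_dvd, X_dvd_iff]
    exact h30
  obtain ⟨σ, k, hkf, hkfin, halg, ρ, hspl, hρ, hρinj, hρsurj, hρσ⟩ :=
    frob_gen K E F θ hθ f hf hs hsep
  rw [hmod] at hspl hρ hρsurj
  obtain ⟨a₁, ha₁, ha₁0⟩ := hρsurj 0 (by rw [map_mul, aeval_X, zero_mul])
  have hq : Fintype.card F ≠ 0 := Fintype.card_ne_zero
  refine ⟨σ, a₁, ha₁, ?_, ?_⟩
  · apply hρinj _ _ (root_map K E f σ a₁ ha₁) ha₁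
    rw [hρσ _ ha₁, ha₁0, zero_pow hq]
  · intro a a' ha ha' haa haa'
    have hr : ∀ b, aeval b f = 0 → b ≠ a₁ → aeval (ρ b) h3 = 0 := by
      intro b hb hba
      have h1 := hρ b hb
      rw [map_mul, aeval_X] at h1
      rcases mul_eq_zero.1 h1 with h1 | h1
      · exact absurd (hρinj _ _ hb ha₁ (by rw [h1, ha₁0])) hba
      · exact h1
    have hρj : ∀ (j : ℕ) (a : E), aeval a f = 0 → ρ ((σ ^ j) a) = ρ a ^ Fintype.card F ^ j := by
      intro j a ha
      induction j with
      | zero => simp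
      | succ j ih =>
        rw [pow_succ', AlgEquiv.mul_apply, hρσ _ (root_map K E f _ _ ha), ih, ← pow_mul,
          ← pow_succ]
    obtain ⟨i, hi⟩ := conj_roots F k h3 h3i h3m (ρ a) (ρ a') (hr a ha haa) (hr a' ha' haa')
    refine ⟨i, ?_⟩
    apply hρinj _ _ (root_map K E f _ _ ha) ha'
    rw [hρj _ _ ha, hi]

end Pool.Agent.L5helper64.NfLow
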