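import Mathlib
import Pool.Agent.L5helper64.NfLow.ResK1

namespace Pool.Agent.L5helper64.NfLow

open Polynomial Module NumberField

theorem transposition (K : Type) [Field K] [NumberField K] (E : Type) [Field E] [NumberField E]
    [Algebra K E] [IsGalois K E] (F : Type) [Field F] [Fintype F] (θ : 𝓞 K →+* F)
    (hθ : Function.Surjective θ) (f : (𝓞 K)[X]) (hf : f.Monic)
    (hs : (f.map (algebraMap (𝓞 K) E)).Splits) (h2 hm : F[X]) (e m : ℕ)
    (he : e ≤ 1) (hm3 : 3 ≤ m) (hmodd : Odd m) (h2i : Irreducible h2) (h2m : h2.Monic)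
    (h2d : h2.natDegree = 2) (hmi : Irreducible hm) (hmm : hm.Monic) (hmd : hm.natDegree = m)
    (hmod : f.map θ = h2 * (X ^ e * hm)) :
    ∃ (τ : Gal(E/K)) (b₁ b₂ : E), aeval b₁ f = 0 ∧ aeval b₂ f = 0 ∧ b₁ ≠ b₂ ∧ τ b₁ = b₂ ∧
      τ b₂ = b₁ ∧ ∀ a, aeval a f = 0 → a ≠ b₁ → a ≠ b₂ → τ a = a := by
  have hXe : ((X : F[X]) ^ e).natDegree = e := natDegree_X_pow e
  have hXe0 : ((X : F[X]) ^ e) ≠ 0 := (monic_X_pow e).ne_zero
  have hc1 : ¬ h2 ∣ X ^ e := by
    intro h
    have := natDegree_le_of_dvd h hXe0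
    rw [hXe, h2d] at this
    omega
  have hc2 : ¬ h2 ∣ hm := by
    intro h
    have h1 := (h2i.associated_of_dvd hmi h)
    have h3 := natDegree_eq_of_degree_eq (degree_eq_degree_of_associated h1)
    rw [h2d, hmd] at h3
    omega
  have hc3 : ¬ hm ∣ X ^ e := by
    intro h
    have := natDegree_le_of_dvd h hXe0
    rw [hXe, hmd] at this
    omega
  have hsepX : ((X : F[X]) ^ e).Separable := by
    interval_cases e
    · rw [pow_zero]; exact separable_one
    · rw [pow_one]; exact separable_X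
  have hsep : (f.map θ).Separable := by
    rw [hmod]
    apply Separable.mul (PerfectField.separable_of_irreducible h2i)
    · apply Separable.mul hsepX (PerfectField.separable_of_irreducible hmi)
      exact ((hmi.coprime_iff_not_dvd).2 hc3).symm
    · rw [h2i.coprime_iff_not_dvd]
      intro h
      rcases h2i.prime.dvd_or_dvd h with h | h
      · exact hc1 h
      · exact hc2 h
  obtain ⟨σ, k, hkf, hkfin, halg, ρ, hspl, hρ, hρinj, hρsurj, hρσ⟩ :=
    frob_gen K E F θ hθ f hf hs hsep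
  rw [hmod] at hspl hρ hρsurj
  set q := Fintype.card F with hq
  have hqpos : 0 < q := Fintype.card_pos
  -- a root of `h2`
  have hne : ((h2 * (X ^ e * hm)).map (algebraMap F k)) ≠ 0 := by
    apply (Polynomial.map_ne_zero_iff (algebraMap F k).injective).2
    exact mul_ne_zero h2i.ne_zero (mul_ne_zero hXe0 hmi.ne_zero)
  have h2s : (h2.map (algebraMap F k)).Splits := by
    apply hspl.of_dvd hne
    rw [Polynomial.map_mul]
    exact dvd_mul_right _ _
  obtain ⟨u, hu⟩ := h2s.exists_eval_eq_zero (by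
    rw [degree_map, degree_eq_natDegree h2i.ne_zero, h2d]; decide)
  rw [eval_map] at hu
  replace hu : aeval u h2 = 0 := hu
  have hu25 : u ^ q ^ 2 = u := by
    have := pow_root F k h2 h2i h2m u hu
    rwa [h2d] at this
  have hu5 : u ^ q ≠ u := root_quad F k h2 h2i h2d u hu
  have hu' : aeval (u ^ q) h2 = 0 := by
    have h1 := Polynomial.aeval_algHom_apply (FiniteField.frobeniusAlgHom F k) u h2
    rw [FiniteField.coe_frobeniusAlgHom, hu] at h1
    rw [h1]; simp
  have hpar : ∀ i : ℕ, u ^ q ^ (2 * i) = u := by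
    intro i
    induction i with
    | zero => simp
    | succ i ih => rw [mul_add, mul_one, pow_add, pow_mul, ih, hu25]
  have hroots2 : ∀ v : k, aeval v h2 = 0 → v = u ∨ v = u ^ q := by
    intro v hv
    obtain ⟨i, hi⟩ := conj_roots F k h2 h2i h2m u v hu hv
    rcases Nat.even_or_odd' i with ⟨j, hj | hj⟩
    · left; rw [hi, hj, hpar]
    · right; rw [hi, hj, pow_add, pow_mul, hpar, pow_one]
  obtain ⟨b₁, hb₁, hb₁u⟩ := hρsurj u (by rw [map_mul, hu, zero_mul])
  obtain ⟨b₂, hb₂, hb₂u⟩ := hρsurj (u ^ q) (by rw [map_mul, hu', zero_mul])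
  have hroot : ∀ (g : Gal(E/K)) (a : E), aeval a f = 0 → aeval (g a) f = 0 :=
    root_map K E f
  have hρj : ∀ (j : ℕ) (a : E), aeval a f = 0 → ρ ((σ ^ j) a) = ρ a ^ q ^ j := by
    intro j a ha
    induction j with
    | zero => simp
    | succ j ih =>
      rw [pow_succ', AlgEquiv.mul_apply, hρσ _ (hroot _ _ ha), ih, ← pow_mul, ← pow_succ]
  obtain ⟨w, hw⟩ := hmodd
  refine ⟨σ ^ m, b₁, b₂, hb₁, hb₂, ?_, ?_, ?_, ?_⟩
  · intro h
    apply hu5
    rw [← hb₂u, ← hb₁u, h]
  · apply hρinj _ _ (hroot _ _ hb₁) hb₂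
    rw [hρj _ _ hb₁, hb₁u, hb₂u, hw, pow_add, pow_mul, hpar, pow_one]
  · apply hρinj _ _ (hroot _ _ hb₂) hb₁
    rw [hρj _ _ hb₂, hb₁u, hb₂u, ← pow_mul, ← pow_succ', hw,
      show 2 * w + 1 + 1 = 2 * (w + 1) by ring, hpar]
  · intro a ha ha1 ha2
    apply hρinj _ _ (hroot _ _ ha) ha
    rw [hρj _ _ ha]
    have h1 := hρ a ha
    rw [map_mul, map_mul, map_pow, aeval_X] at h1
    rcases mul_eq_zero.1 h1 with h1 | h1
    · exfalso
      rcases hroots2 _ h1 with h1 | h1
      · exact ha1 (hρinj _ _ ha hb₁ (by rw [h1, hb₁u]))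
      · exact ha2 (hρinj _ _ ha hb₂ (by rw [h1, hb₂u]))
    · rcases mul_eq_zero.1 h1 with h1 | h1
      · have h3 : ρ a = 0 := by
          by_contra hcon
          exact pow_ne_zero e hcon h1
        rw [h3, zero_pow (pow_pos hqpos _).ne']
      · have h3 := pow_root F k hm hmi hmm (ρ a) h1
        rwa [hmd] at h3

theorem full_group (K : Type) [Field K] [NumberField K] (E : Type) [Field E] [NumberField E]
    [Algebra K E] [IsGalois K E] (f : (𝓞 K)[X])
    (hf : f.Monic) (hirr : Irreducible (f.map (algebraMap (𝓞 K) K)))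
    (hsplit : (f.map (algebraMap (𝓞 K) K)).IsSplittingField K E)
    (σ : Gal(E/K)) (a₁ : E) (ha₁ : aeval a₁ f = 0) (hσa₁ : σ a₁ = a₁)
    (hσt : ∀ a a' : E, aeval a f = 0 → aeval a' f = 0 → a ≠ a₁ → a' ≠ a₁ →
        ∃ i : ℕ, (σ ^ i) a = a')
    (τ : Gal(E/K)) (b₁ b₂ : E) (hb₁ : aeval b₁ f = 0) (hb₂ : aeval b₂ f = 0) (hb : b₁ ≠ b₂)
    (hτ1 : τ b₁ = b₂) (hτ2 : τ b₂ = b₁)
    (hτ : ∀ a, aeval a f = 0 → a ≠ b₁ → a ≠ b₂ → τ a = a) :
    finrank K E = f.natDegree.factorial := by
  classical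
  have hroot : ∀ (g : Gal(E/K)) (a : E), aeval a f = 0 → aeval (g a) f = 0 :=
    root_map K E f
  set fQ : K[X] := f.map (algebraMap (𝓞 K) K) with hfQ
  have hfQ0 : fQ ≠ 0 := hirr.ne_zero
  have hmem : ∀ a : E, a ∈ fQ.rootSet E ↔ aeval a f = 0 := by
    intro a
    rw [mem_rootSet, hfQ, aeval_map_algebraMap]
    exact ⟨fun h => h.2, fun h => ⟨hfQ0, h⟩⟩
  let act : MulAction Gal(E/K) {a : E // aeval a f = 0} :=
    { smul := fun g a => ⟨g a.1, hroot g a.1 a.2⟩
      one_smul := fun a => rfl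
      mul_smul := fun g h a => rfl }
  have hact : ∀ (g : Gal(E/K)) (a : {a : E // aeval a f = 0}),
      ((MulAction.toPermHom Gal(E/K) {a : E // aeval a f = 0} g a : {a : E // aeval a f = 0}) : E)
        = g a.1 := fun g a => rfl
  have hfin : Finite {a : E // aeval a f = 0} := by
    have h1 : (fQ.rootSet E).Finite := Set.toFinite _
    refine Set.Finite.subset h1 ?_ |>.to_subtype
    intro a ha
    exact (hmem a).2 ha
  have hcardR : Nat.card {a : E // aeval a f = 0} = f.natDegree := by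
    have h1 := card_rootSet_eq_natDegree (K := E) (p := fQ) hirr.separable hsplit.splits'
    rw [hfQ, hf.natDegree_map] at h1
    rw [← h1, ← Nat.card_eq_fintype_card]
    exact Nat.card_congr (Equiv.subtypeEquivRight fun a => (hmem a).symm)
  have hinj : Function.Injective (MulAction.toPermHom Gal(E/K) {a : E // aeval a f = 0}) := by
    intro g h hgh
    have h1 : (g : E →ₐ[K] E) = (h : E →ₐ[K] E) := by
      apply AlgHom.ext_of_adjoin_eq_top (IsSplittingField.adjoin_rootSet E fQ)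
      intro a ha
      have h2 := (hmem a).1 ha
      have h3 := hact g ⟨a, h2⟩
      have h4 := hact h ⟨a, h2⟩
      rw [hgh, h4] at h3
      exact h3.symm
    ext x
    exact congrArg (fun φ : E →ₐ[K] E => φ x) h1
  have htrans : ∀ x : E, aeval x f = 0 → ∃ g : Gal(E/K), g x = a₁ := by
    intro x hx
    have hmx : minpoly K x = fQ :=
      (minpoly.eq_of_irreducible_of_monic hirr (by rw [hfQ, aeval_map_algebraMap]; exact hx)
        (hf.map _)).symm
    exact minpoly.exists_algEquiv_of_root' (K := K) (x := a₁) (y := x)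
      (Algebra.IsAlgebraic.isAlgebraic _) (by
        rw [hmx, hfQ, aeval_map_algebraMap]; exact ha₁)
  have hσi : ∀ i : ℕ, (σ ^ i) a₁ = a₁ := by
    intro j
    induction j with
    | zero => rfl
    | succ j ihj => rw [pow_succ, AlgEquiv.mul_apply, hσa₁, ihj]
  have h2trans : ∀ x y : E, aeval x f = 0 → aeval y f = 0 → x ≠ y →
      ∃ g : Gal(E/K), g b₁ = x ∧ g b₂ = y := by
    intro x y hx hy hxy
    obtain ⟨g1, hg1⟩ := htrans x hx
    obtain ⟨g2, hg2⟩ := htrans b₁ hb₁
    have h3 : g1 y ≠ a₁ := by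
      intro h
      rw [← hg1] at h
      exact hxy (g1.injective h).symm
    have h4 : g2 b₂ ≠ a₁ := by
      intro h
      rw [← hg2] at h
      exact hb (g2.injective h).symm
    obtain ⟨i, hi⟩ := hσt _ _ (hroot g2 _ hb₂) (hroot g1 _ hy) h4 h3
    refine ⟨g1⁻¹ * σ ^ i * g2, ?_, ?_⟩
    · rw [AlgEquiv.mul_apply, AlgEquiv.mul_apply, hg2, hσi, ← hg1, ← AlgEquiv.mul_apply,
        inv_mul_cancel, AlgEquiv.one_apply]
    · rw [AlgEquiv.mul_apply, AlgEquiv.mul_apply, hi, ← AlgEquiv.mul_apply, inv_mul_cancel,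
        AlgEquiv.one_apply]
  have hsurj : Function.Surjective (MulAction.toPermHom Gal(E/K) {a : E // aeval a f = 0}) := by
    rw [← MonoidHom.range_eq_top, eq_top_iff, ← Equiv.Perm.closure_isSwap, Subgroup.closure_le]
    rintro _ ⟨x, y, hxy, rfl⟩
    obtain ⟨g, hgx, hgy⟩ := h2trans x.1 y.1 x.2 y.2 (fun h => hxy (Subtype.ext h))
    refine ⟨g * τ * g⁻¹, ?_⟩
    ext z
    rw [hact, AlgEquiv.mul_apply, AlgEquiv.mul_apply]
    have hginv : ∀ w : E, g (g⁻¹ w) = w := by
      intro w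
      rw [← AlgEquiv.mul_apply, mul_inv_cancel, AlgEquiv.one_apply]
    by_cases hzx : z = x
    · rw [hzx, Equiv.swap_apply_left]
      have h1 : g⁻¹ x.1 = b₁ := by
        apply g.injective
        rw [hginv, hgx]
      rw [h1, hτ1, hgy]
    · by_cases hzy : z = y
      · rw [hzy, Equiv.swap_apply_right]
        have h1 : g⁻¹ y.1 = b₂ := by
          apply g.injective
          rw [hginv, hgy]
        rw [h1, hτ2, hgx]
      · rw [Equiv.swap_apply_of_ne_of_ne hzx hzy]
        rw [hτ (g⁻¹ z.1) (hroot _ _ z.2), hginv]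
        · intro h
          apply hzx
          apply Subtype.ext
          rw [← hginv z.1, h, hgx]
        · intro h
          apply hzy
          apply Subtype.ext
          rw [← hginv z.1, h, hgy]
  have h1 := Nat.card_congr (Equiv.ofBijective _ ⟨hinj, hsurj⟩)
  rw [IsGalois.card_aut_eq_finrank, Nat.card_perm, hcardR] at h1
  exact h1

theorem no_intermediate_aux (K : Type) [Field K] [NumberField K] (F : Type) [Field F] [Fintype F]
    (θ : 𝓞 K →+* F) (hθ : Function.Surjective θ) (f : (𝓞 K)[X]) (hf : f.Monic)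
    (h3 : F[X]) (h3i : Irreducible h3)
    (h3m : h3.Monic) (h30 : h3.coeff 0 ≠ 0)
    (hmod : f.map θ = X * h3)
    (α : AlgebraicClosure K) (hmQ : minpoly K α = f.map (algebraMap (𝓞 K) K))
    (L : IntermediateField K (AlgebraicClosure K)) [FiniteDimensional K L] (γ : L)
    (hγα : (γ : AlgebraicClosure K) = α) (hγgen : ∀ b : L, ∃ P : K[X], b = aeval γ P)
    (M : IntermediateField K L) : M = ⊥ ∨ M = ⊤ := by
  classical
  by_cases hKtop : M = ⊤
  · exact Or.inr hKtop
  left
  have hαf : aeval α f = 0 := by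
    have h1 := minpoly.aeval K α
    rw [hmQ, aeval_map_algebraMap] at h1
    exact h1
  -- another embedding over M
  let _ : Algebra M (AlgebraicClosure K) :=
    ((algebraMap L (AlgebraicClosure K)).comp (algebraMap M L)).toAlgebra
  have : IsScalarTower M L (AlgebraicClosure K) := IsScalarTower.of_algebraMap_eq fun _ => rfl
  have hfK : FiniteDimensional M L := inferInstance
  have hcardK : Fintype.card (L →ₐ[M] AlgebraicClosure K) = finrank M L :=
    AlgHom.card M L (AlgebraicClosure K)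
  have h1lt : 1 < Fintype.card (L →ₐ[M] AlgebraicClosure K) := by
    rw [hcardK]
    have h1 : finrank M L ≠ 1 := fun h => hKtop (IntermediateField.finrank_eq_one_iff_eq_top.1 h)
    have h2 : 0 < finrank M L := finrank_pos
    omega
  let ι : L →ₐ[M] AlgebraicClosure K :=
    { (algebraMap L (AlgebraicClosure K)) with commutes' := fun _ => rfl }
  obtain ⟨ψ, hψ⟩ := Fintype.exists_ne_of_one_lt_card h1lt ι
  have hψP : ∀ P : K[X], ψ (aeval γ P) = aeval (ψ γ) P := by
    intro P
    let ψK : L →ₐ[K] AlgebraicClosure K :=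
      { (ψ : L →+* AlgebraicClosure K) with commutes' := fun r => ψ.commutes (algebraMap K M r) }
    exact (Polynomial.aeval_algHom_apply ψK γ P).symm
  have hcoeP : ∀ P : K[X], ((aeval γ P : L) : AlgebraicClosure K) = aeval α P := by
    intro P
    have h1 := Polynomial.aeval_algHom_apply (IntermediateField.val L) γ P
    have h2 : (IntermediateField.val L) γ = α := hγα
    rw [h2] at h1
    exact h1.symm
  have hne : ψ γ ≠ α := by
    intro h
    apply hψ
    ext b
    obtain ⟨P, rfl⟩ := hγgen b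
    rw [hψP, h]
    exact (hcoeP P).symm
  -- the splitting field
  set fQ : K[X] := f.map (algebraMap (𝓞 K) K) with hfQ
  have hα'f : aeval (ψ γ) f = 0 := by
    have h1 : aeval γ fQ = 0 := by
      have h2 := hcoeP fQ
      rw [hfQ, aeval_map_algebraMap (A := K) α f, hαf] at h2
      rw [hfQ]
      exact Subtype.ext h2
    have h3 := hψP fQ
    rw [h1, map_zero, hfQ, aeval_map_algebraMap] at h3
    exact h3.symm
  set E := IntermediateField.adjoin K (fQ.rootSet (AlgebraicClosure K)) with hE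
  have hsplit : fQ.IsSplittingField K E :=
    IntermediateField.adjoin_rootSet_isSplittingField (IsAlgClosed.splits _)
  have hfdE : FiniteDimensional K E := IsSplittingField.finiteDimensional E fQ
  have hnumE : NumberField E := NumberField.of_module_finite K E
  have hnorm : Normal K E := Normal.of_isSplittingField fQ
  have hgal : IsGalois K E := { to_isSeparable := inferInstance, to_normal := hnorm }
  have hsE : (f.map (algebraMap (𝓞 K) E)).Splits := by
    have h1 := hsplit.splits'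
    rw [hfQ, Polynomial.map_map, ← IsScalarTower.algebraMap_eq] at h1
    exact h1
  obtain ⟨σ, a₁, ha₁, hσa₁, htrans⟩ := frob K E F θ hθ f hf hsE h3 h3i h3m h30 hmod
  have hfQ0 : fQ ≠ 0 := (hf.map _).ne_zero
  have hmemE : ∀ x : AlgebraicClosure K, aeval x f = 0 → x ∈ E := by
    intro x hx
    apply IntermediateField.subset_adjoin
    rw [mem_rootSet]
    refine ⟨hfQ0, ?_⟩
    rw [hfQ, aeval_map_algebraMap]
    exact hx
  set αE : E := ⟨α, hmemE α hαf⟩ with hαE
  set α'E : E := ⟨ψ γ, hmemE _ hα'f⟩ with hα'E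
  have hEP : ∀ (x : E) (P : K[X]), ((aeval x P : E) : AlgebraicClosure K)
      = aeval (x : AlgebraicClosure K) P := by
    intro x P
    exact (Polynomial.aeval_algebraMap_apply (AlgebraicClosure K) x P).symm
  have hEf : ∀ x : E, aeval x f = 0 ↔ aeval (x : AlgebraicClosure K) f = 0 := by
    intro x
    have h1 := hEP x fQ
    rw [hfQ, aeval_map_algebraMap, aeval_map_algebraMap] at h1
    rw [← h1]
    constructor
    · intro h; rw [h]; rfl
    · intro h; exact Subtype.ext h
  have hαEf : aeval αE f = 0 := (hEf αE).2 hαf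
  have hα'Ef : aeval α'E f = 0 := (hEf α'E).2 hα'f
  have hτP : ∀ (τ : Gal(E/K)) (x : E) (P : K[X]), τ (aeval x P) = aeval (τ x) P := by
    intro τ x P
    exact (Polynomial.aeval_algHom_apply (τ : E →ₐ[K] E) x P).symm
  have hτf : ∀ (τ : Gal(E/K)) (x : E), aeval x f = 0 → aeval (τ x) f = 0 :=
    root_map K E f
  have hmE : minpoly K αE = fQ := by
    rw [← hmQ]
    exact (minpoly.algebraMap_eq (algebraMap E (AlgebraicClosure K)).injective αE).symm
  obtain ⟨τ, hτ⟩ := minpoly.exists_algEquiv_of_root' (K := K) (x := a₁) (y := αE)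
    (Algebra.IsAlgebraic.isAlgebraic _) (by
      rw [hmE, hfQ, aeval_map_algebraMap]; exact ha₁)
  have hneE : τ α'E ≠ a₁ := by
    intro h
    rw [← hτ] at h
    have h1 := τ.injective h
    exact hne (congrArg (fun z : E => (z : AlgebraicClosure K)) h1)
  rw [eq_bot_iff]
  intro b hb
  obtain ⟨P, rfl⟩ := hγgen b
  -- value at the two roots
  have hPP : aeval α P = aeval (ψ γ) P := by
    have h1 : ψ (aeval γ P) = ((aeval γ P : L) : AlgebraicClosure K) :=
      ψ.commutes (⟨aeval γ P, hb⟩ : M)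
    rw [hψP] at h1
    rw [h1, hcoeP]
  have hPE : aeval αE P = aeval α'E P := by
    apply Subtype.ext
    rw [hEP, hEP]
    exact hPP
  have hPa : aeval a₁ P = aeval (τ α'E) P := by
    rw [← hτ, ← hτP, ← hτP, hPE]
  have hall : ∀ a : E, aeval a f = 0 → aeval a P = aeval a₁ P := by
    intro a ha
    by_cases haa : a = a₁
    · rw [haa]
    · obtain ⟨i, hi⟩ := htrans (τ α'E) a (hτf τ _ hα'Ef) ha hneE haa
      have hfixi : (σ ^ i) a₁ = a₁ := by
        have : ∀ j : ℕ, (σ ^ j) a₁ = a₁ := by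
          intro j
          induction j with
          | zero => rfl
          | succ j ihj => rw [pow_succ, AlgEquiv.mul_apply, hσa₁, ihj]
        exact this _
      have h1 := hτP (σ ^ i) a₁ P
      have h2 := hτP (σ ^ i) (τ α'E) P
      rw [hfixi] at h1
      rw [hi] at h2
      rw [← h2, ← hPa, h1]
  have hfixed : ∀ g : Gal(E/K), g (aeval αE P) = aeval αE P := by
    intro g
    rw [hτP, hall _ (hτf g _ hαEf), hall _ hαEf]
  have hbot := (IsGalois.mem_bot_iff_fixed (F := K) (aeval αE P)).2 hfixed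
  rw [IntermediateField.mem_bot] at hbot
  obtain ⟨q, hq⟩ := hbot
  rw [IntermediateField.mem_bot]
  refine ⟨q, ?_⟩
  apply Subtype.ext
  rw [hcoeP]
  have h1 := congrArg (fun z : E => (z : AlgebraicClosure K)) hq
  simp only [hEP] at h1
  rw [← h1]
  rfl

theorem isIntegral_of (K : Type) [Field K] [NumberField K] (f : (𝓞 K)[X]) (hf : f.Monic)
    (α : AlgebraicClosure K) (hα : minpoly K α = f.map (algebraMap (𝓞 K) K)) :
    IsIntegral K α := by
  by_contra hcon
  rw [minpoly.eq_zero hcon] at hα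
  exact (hf.map (algebraMap (𝓞 K) K)).ne_zero hα.symm

theorem no_intermediate (K : Type) [Field K] [NumberField K] (F : Type) [Field F] [Fintype F]
    (θ : 𝓞 K →+* F) (hθ : Function.Surjective θ) (f : (𝓞 K)[X]) (hf : f.Monic)
    (h3 : F[X]) (h3i : Irreducible h3)
    (h3m : h3.Monic) (h30 : h3.coeff 0 ≠ 0)
    (hmod : f.map θ = X * h3)
    (α : AlgebraicClosure K) (hα : minpoly K α = f.map (algebraMap (𝓞 K) K))
    (M : IntermediateField K (IntermediateField.adjoin K {α})) : M = ⊥ ∨ M = ⊤ := by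
  have hαQ : IsIntegral K α := isIntegral_of K f hf α hα
  have hfd : FiniteDimensional K (IntermediateField.adjoin K {α}) :=
    IntermediateField.adjoin.finiteDimensional hαQ
  refine no_intermediate_aux K F θ hθ f hf h3 h3i h3m h30 hmod α hα _
    (IntermediateField.AdjoinSimple.gen K α) (IntermediateField.AdjoinSimple.coe_gen K α) ?_ M
  intro b
  obtain ⟨P, hP⟩ := (IntermediateField.adjoin.powerBasis hαQ).exists_eq_aeval' b
  refine ⟨P, ?_⟩
  rw [IntermediateField.adjoin.powerBasis_gen] at hP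
  exact hP

theorem normalClosure_finrank (K : Type) [Field K] [NumberField K] (F₃ : Type) [Field F₃]
    [Fintype F₃] (θ₃ : 𝓞 K →+* F₃) (hθ₃ : Function.Surjective θ₃)
    (F₅ : Type) [Field F₅]
    [Fintype F₅] (θ₅ : 𝓞 K →+* F₅) (hθ₅ : Function.Surjective θ₅)
    (f : (𝓞 K)[X]) (hf : f.Monic) (h3 : F₃[X]) (h3i : Irreducible h3)
    (h3m : h3.Monic) (h30 : h3.coeff 0 ≠ 0)
    (hmod3 : f.map θ₃ = X * h3)
    (h2 hm : F₅[X]) (e m : ℕ)
    (he : e ≤ 1) (hm3 : 3 ≤ m) (hmodd : Odd m) (h2i : Irreducible h2) (h2m : h2.Monic)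
    (h2d : h2.natDegree = 2) (hmi : Irreducible hm) (hmm : hm.Monic) (hmd : hm.natDegree = m)
    (hmod : f.map θ₅ = h2 * (X ^ e * hm))
    (α : AlgebraicClosure K) (hmQ : minpoly K α = f.map (algebraMap (𝓞 K) K)) :
    finrank K (IntermediateField.normalClosure K (IntermediateField.adjoin K {α})
      (AlgebraicClosure K)) = f.natDegree.factorial := by
  classical
  have hαQ : IsIntegral K α := isIntegral_of K f hf α hmQ
  set fQ : K[X] := f.map (algebraMap (𝓞 K) K) with hfQ
  have hfQ0 : fQ ≠ 0 := (hf.map _).ne_zero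
  have hn : Normal K (AlgebraicClosure K) := inferInstance
  have hNE : IntermediateField.normalClosure K (IntermediateField.adjoin K {α})
      (AlgebraicClosure K) = IntermediateField.adjoin K (fQ.rootSet (AlgebraicClosure K)) := by
    rw [IntermediateField.normalClosure_def'']
    apply le_antisymm
    · refine iSup_le fun g => ?_
      rw [IntermediateField.adjoin_map, IntermediateField.adjoin_le_iff]
      rintro _ ⟨x, hx, rfl⟩
      rw [Set.mem_singleton_iff] at hx
      rw [hx]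
      apply IntermediateField.subset_adjoin
      rw [mem_rootSet]
      refine ⟨hfQ0, ?_⟩
      have h1 := Polynomial.aeval_algHom_apply (g : AlgebraicClosure K →ₐ[K] AlgebraicClosure K)
        α fQ
      have h2 : aeval α fQ = 0 := by rw [← hmQ]; exact minpoly.aeval K α
      rw [h2, map_zero] at h1
      exact h1
    · rw [IntermediateField.adjoin_le_iff]
      intro β hβ
      obtain ⟨g, hg⟩ := minpoly.exists_algEquiv_of_root' (K := K) (x := β) (y := α)
        (Algebra.IsAlgebraic.isAlgebraic _) (by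
          rw [hmQ]; exact (mem_rootSet.1 hβ).2)
      have h1 : β ∈ (IntermediateField.adjoin K {α}).map
          (g : AlgebraicClosure K →ₐ[K] AlgebraicClosure K) := by
        refine ⟨α, IntermediateField.mem_adjoin_simple_self K α, hg⟩
      exact (le_iSup (fun g : Gal(AlgebraicClosure K/K) => (IntermediateField.adjoin K {α}).map
          (g : AlgebraicClosure K →ₐ[K] AlgebraicClosure K)) g) h1
  rw [hNE]
  set E := IntermediateField.adjoin K (fQ.rootSet (AlgebraicClosure K)) with hE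
  have hsplit : fQ.IsSplittingField K E :=
    IntermediateField.adjoin_rootSet_isSplittingField (IsAlgClosed.splits _)
  have hfdE : FiniteDimensional K E := IsSplittingField.finiteDimensional E fQ
  have hnumE : NumberField E := NumberField.of_module_finite K E
  have hnorm : Normal K E := Normal.of_isSplittingField fQ
  have hgal : IsGalois K E := { to_isSeparable := inferInstance, to_normal := hnorm }
  have hsE : (f.map (algebraMap (𝓞 K) E)).Splits := by
    have h1 := hsplit.splits'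
    rw [hfQ, Polynomial.map_map, ← IsScalarTower.algebraMap_eq] at h1
    exact h1
  obtain ⟨σ, a₁, ha₁, hσa₁, htrans⟩ := frob K E F₃ θ₃ hθ₃ f hf hsE h3 h3i h3m h30 hmod3
  obtain ⟨τ, b₁, b₂, hb₁, hb₂, hb, hτ1, hτ2, hτ⟩ := transposition K E F₅ θ₅ hθ₅ f hf hsE h2 hm e m
    he hm3 hmodd h2i h2m h2d hmi hmm hmd hmod
  exact full_group K E f hf (by rw [← hfQ, ← hmQ]; exact minpoly.irreducible hαQ) hsplit σ a₁ ha₁
    hσa₁ htrans τ b₁ b₂ hb₁ hb₂ hb hτ1 hτ2 hτ

/-- a residue field of characteristic `p` -/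
theorem exists_residue_field (K : Type) [Field K] [NumberField K] (p : ℕ) [hp : Fact p.Prime] :
    ∃ (F : Type) (_ : Field F) (_ : Fintype F) (_ : CharP F p) (θ : 𝓞 K →+* F),
      Function.Surjective θ := by
  have hPmax : (Ideal.span {((p : ℕ) : ℤ)}).IsMaximal :=
    PrincipalIdealRing.isMaximal_of_irreducible
      (Nat.prime_iff_prime_int.1 hp.out).irreducible
  obtain ⟨Q, hQmax, hQ⟩ := Ideal.exists_ideal_over_maximal_of_isIntegral (S := 𝓞 K)
    (Ideal.span {((p : ℕ) : ℤ)}) (by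
      rw [(RingHom.injective_iff_ker_eq_bot _).1 (FaithfulSMul.algebraMap_injective ℤ (𝓞 K))]
      exact bot_le)
  have hpQ : ((p : ℕ) : 𝓞 K) ∈ Q := by
    have h1 : ((p : ℕ) : ℤ) ∈ Q.comap (algebraMap ℤ (𝓞 K)) := by
      rw [hQ]; exact Ideal.mem_span_singleton_self _
    simpa using h1
  have hQbot : Q ≠ ⊥ := by
    intro h
    rw [h, Ideal.mem_bot] at hpQ
    exact (Nat.cast_ne_zero (R := 𝓞 K)).2 hp.out.ne_zero hpQ
  have : Finite (𝓞 K ⧸ Q) := Ideal.finiteQuotientOfFreeOfNeBot Q hQbot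
  let _ : Field (𝓞 K ⧸ Q) := Ideal.Quotient.field Q
  have hc : CharP (𝓞 K ⧸ Q) p := by
    refine (CharP.charP_iff_prime_eq_zero hp.out).2 ?_
    have h1 : Ideal.Quotient.mk Q ((p : ℕ) : 𝓞 K) = 0 := Ideal.Quotient.eq_zero_iff_mem.2 hpQ
    rw [map_natCast] at h1
    exact h1
  exact ⟨𝓞 K ⧸ Q, Ideal.Quotient.field Q, Fintype.ofFinite _, hc, Ideal.Quotient.mk Q,
    Ideal.Quotient.mk_surjective⟩

/-- a monic irreducible polynomial of degree `n` over the finite field `F` and a monic lift -/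
theorem exists_lift (R : Type) [CommRing R] (F : Type) [Field F] [Finite F] (p : ℕ)
    [Fact p.Prime] [CharP F p] (θ : R →+* F) (hθ : Function.Surjective θ) (n : ℕ) (hn : n ≠ 0) :
    ∃ H : R[X], H.Monic ∧ H.natDegree = n ∧ Irreducible (H.map θ) := by
  have hnz : NeZero n := ⟨hn⟩
  obtain ⟨x, hx⟩ := Field.exists_primitive_element F (FiniteField.Extension F p n)
  have hxi : IsIntegral F x := Algebra.IsIntegral.isIntegral x
  have hdeg : (minpoly F x).natDegree = n := by
    rw [← IntermediateField.adjoin.finrank hxi, hx, IntermediateField.finrank_top',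
      FiniteField.finrank_extension F p n]
  have hlift : minpoly F x ∈ Polynomial.lifts θ := by
    rw [Polynomial.mem_lifts]
    exact Polynomial.map_surjective _ hθ _
  obtain ⟨H, hH, hHd, hHm⟩ := Polynomial.lifts_and_natDegree_eq_and_monic hlift (minpoly.monic hxi)
  exact ⟨H, hHm, by rw [hHd, hdeg], by rw [hH]; exact minpoly.irreducible hxi⟩

/-- JOB 11 -/
theorem exists_residueK (K : Type) [Field K] [NumberField K] (n : ℕ) (hn : 5 ≤ n) :
    ∃ q : ℕ, 1 ≤ q ∧ ∃ f0 : (𝓞 K)[X], f0.Monic ∧ f0.natDegree = n ∧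
      ∀ f : (𝓞 K)[X], f.Monic → (∃ g, f = f0 + C ((q : ℕ) : 𝓞 K) * g) → Irreducible f ∧
        ∀ α : AlgebraicClosure K, minpoly K α = f.map (algebraMap (𝓞 K) K) →
          (∀ E : IntermediateField K (IntermediateField.adjoin K {α}), E = ⊥ ∨ E = ⊤) ∧
          finrank K (IntermediateField.normalClosure K (IntermediateField.adjoin K {α})
            (AlgebraicClosure K)) = n.factorial := by
  have h2p : Fact (Nat.Prime 2) := ⟨Nat.prime_two⟩
  have h3p : Fact (Nat.Prime 3) := ⟨Nat.prime_three⟩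
  have h5p : Fact (Nat.Prime 5) := ⟨Nat.prime_five⟩
  obtain ⟨e, m, he, hm3, hmodd, hnem⟩ : ∃ e m : ℕ, e ≤ 1 ∧ 3 ≤ m ∧ Odd m ∧ n = 2 + (e + m) := by
    rcases Nat.even_or_odd n with h | h
    · obtain ⟨r, hr⟩ := h
      exact ⟨1, n - 3, le_refl _, by omega, ⟨r - 2, by omega⟩, by omega⟩
    · obtain ⟨r, hr⟩ := h
      exact ⟨0, n - 2, by omega, by omega, ⟨r - 1, by omega⟩, by omega⟩
  obtain ⟨K2, hK2, hK2f, hK2c, θ₂, hθ₂⟩ := exists_residue_field K 2
  obtain ⟨K3, hK3, hK3f, hK3c, θ₃, hθ₃⟩ := exists_residue_field K 3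
  obtain ⟨K5, hK5, hK5f, hK5c, θ₅, hθ₅⟩ := exists_residue_field K 5
  obtain ⟨F2, hF2m, hF2d, hF2i⟩ := exists_lift (𝓞 K) K2 2 θ₂ hθ₂ n (by omega)
  obtain ⟨H3, hH3m, hH3d, hH3i⟩ := exists_lift (𝓞 K) K3 3 θ₃ hθ₃ (n - 1) (by omega)
  obtain ⟨Q5, hQ5m, hQ5d, hQ5i⟩ := exists_lift (𝓞 K) K5 5 θ₅ hθ₅ 2 (by omega)
  obtain ⟨H5, hH5m, hH5d, hH5i⟩ := exists_lift (𝓞 K) K5 5 θ₅ hθ₅ m (by omega)
  have hF3m : (X * H3).Monic := monic_X.mul hH3m
  have hF3d : (X * H3).natDegree = n := by
    rw [monic_X.natDegree_mul hH3m, natDegree_X, hH3d]; omega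
  have hF5m : (Q5 * (X ^ e * H5)).Monic := hQ5m.mul ((monic_X_pow e).mul hH5m)
  have hF5d : (Q5 * (X ^ e * H5)).natDegree = n := by
    rw [hQ5m.natDegree_mul ((monic_X_pow e).mul hH5m), (monic_X_pow e).natDegree_mul hH5m,
      natDegree_X_pow, hQ5d, hH5d, hnem]
  set F3 := X * H3 with hF3
  set F5 := Q5 * (X ^ e * H5) with hF5
  have c15 : (15 : (𝓞 K)[X]) = C 15 := rfl
  have c10 : (10 : (𝓞 K)[X]) = C 10 := rfl
  have c24 : (24 : (𝓞 K)[X]) = C 24 := rfl
  have hc : (15 * F2 + 10 * F3 - 24 * F5 : (𝓞 K)[X]).coeff n = 1 := by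
    rw [c15, c10, c24, coeff_sub, coeff_add, coeff_C_mul, coeff_C_mul, coeff_C_mul]
    have h2 : F2.coeff n = 1 := by rw [← hF2d]; exact hF2m
    have h3 : F3.coeff n = 1 := by rw [← hF3d]; exact hF3m
    have h5 : F5.coeff n = 1 := by rw [← hF5d]; exact hF5m
    rw [h2, h3, h5]; norm_num
  have hdle : (15 * F2 + 10 * F3 - 24 * F5 : (𝓞 K)[X]).natDegree ≤ n := by
    refine (natDegree_sub_le _ _).trans (max_le ((natDegree_add_le _ _).trans (max_le ?_ ?_)) ?_)
    · refine natDegree_mul_le.trans ?_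
      rw [hF2d, c15, natDegree_C, zero_add]
    · refine natDegree_mul_le.trans ?_
      rw [hF3d, c10, natDegree_C, zero_add]
    · refine natDegree_mul_le.trans ?_
      rw [hF5d, c24, natDegree_C, zero_add]
  have hmon : (15 * F2 + 10 * F3 - 24 * F5 : (𝓞 K)[X]).Monic :=
    monic_of_natDegree_le_of_coeff_eq_one n hdle hc
  have hdeg : (15 * F2 + 10 * F3 - 24 * F5 : (𝓞 K)[X]).natDegree = n := by
    apply le_antisymm hdle
    apply le_natDegree_of_ne_zero
    rw [hc]; exact one_ne_zero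
  refine ⟨30, by norm_num, 15 * F2 + 10 * F3 - 24 * F5, hmon, hdeg, ?_⟩
  rintro f hf ⟨g, hg⟩
  have c30 : (C ((30 : ℕ) : 𝓞 K) : (𝓞 K)[X]) = 30 := by
    rw [Nat.cast_ofNat]; rfl
  have hmap : ∀ (F : Type) [Field F] (θ : 𝓞 K →+* F) (a : ℕ) (G R : (𝓞 K)[X]),
      ((a : ℕ) : F) = 0 → (G + (a : (𝓞 K)[X]) * R).map θ = G.map θ := by
    intro F _ θ a G R ha
    rw [Polynomial.map_add, Polynomial.map_mul, Polynomial.map_natCast]
    have h1 : ((a : ℕ) : F[X]) = 0 := by
      rw [← C_eq_natCast, ha, C_0]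
    rw [h1, zero_mul, add_zero]
  have hmod2 : f.map θ₂ = F2.map θ₂ := by
    have h1 : f = F2 + ((2 : ℕ) : (𝓞 K)[X]) * (7 * F2 + 5 * F3 - 12 * F5 + 15 * g) := by
      rw [hg, c30]
      push_cast
      ring
    rw [h1]
    exact hmap K2 θ₂ 2 _ _ (CharP.cast_eq_zero K2 2)
  have hmod3 : f.map θ₃ = X * H3.map θ₃ := by
    have h1 : f = F3 + ((3 : ℕ) : (𝓞 K)[X]) * (5 * F2 + 3 * F3 - 8 * F5 + 10 * g) := by
      rw [hg, c30]
      push_cast
      ring
    rw [h1, hmap K3 θ₃ 3 _ _ (CharP.cast_eq_zero K3 3), hF3, Polynomial.map_mul, Polynomial.map_X]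
  have hmod5 : f.map θ₅ = Q5.map θ₅ * (X ^ e * H5.map θ₅) := by
    have h1 : f = F5 + ((5 : ℕ) : (𝓞 K)[X]) * (3 * F2 + 2 * F3 - 5 * F5 + 6 * g) := by
      rw [hg, c30]
      push_cast
      ring
    rw [h1, hmap K5 θ₅ 5 _ _ (CharP.cast_eq_zero K5 5), hF5, Polynomial.map_mul,
      Polynomial.map_mul, Polynomial.map_pow, Polynomial.map_X]
  have hH30 : (H3.map θ₃).coeff 0 ≠ 0 := by
    intro h
    rw [← X_dvd_iff] at h
    obtain ⟨q, hq⟩ := h
    have h1 := hH3i.isUnit_or_isUnit hq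
    rcases h1 with h1 | h1
    · exact not_isUnit_X h1
    · have h2 : (H3.map θ₃).natDegree = n - 1 := by
        rw [hH3m.natDegree_map, hH3d]
      rw [hq, natDegree_X_mul h1.ne_zero, natDegree_eq_zero_of_isUnit h1] at h2
      omega
  have hfd : f.natDegree = n := by
    rw [← hF2d, ← hF2m.natDegree_map θ₂, ← hmod2, hf.natDegree_map]
  refine ⟨?_, ?_⟩
  · apply hf.irreducible_of_irreducible_map θ₂
    rw [hmod2]
    exact hF2i
  · intro α hα
    refine ⟨fun M => no_intermediate K K3 θ₃ hθ₃ f hf (H3.map θ₃) hH3i (hH3m.map _)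
      hH30 hmod3 α hα M, ?_⟩
    rw [← hfd]
    exact normalClosure_finrank K K3 θ₃ hθ₃ K5 θ₅ hθ₅ f hf (H3.map θ₃) hH3i (hH3m.map _)
      hH30 hmod3 (Q5.map θ₅) (H5.map θ₅) e m he hm3
      hmodd hQ5i (hQ5m.map _) (by rw [hQ5m.natDegree_map, hQ5d]) hH5i (hH5m.map _)
      (by rw [hH5m.natDegree_map, hH5d]) hmod5 α hα

end Pool.Agent.L5helper64.NfLow
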